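import Mathlib

/-!
# MP_d4d41d_nt: positivity of the partition function times a reciprocal false theta function

`(q;q)_∞ / Ψ(-q^2, q) = ∑ b(n) q^n`. We prove `b(n) > 0` for all `n ≥ 7`.

Proof. `b(n) = e(n) - ∑_{j ≥ 1} P(j) b(n - j)`, where `e(n)` and `P(n)` are the coefficients of
`(q;q)_∞` (pentagonal number theorem) and of `Ψ(-q^2, q)`. For `n ≥ 20` the ratio `b(n+1)/b(n)`
stays in the interval `[1.52, 1.55]`, and `∑_{k ≤ n} b(k) ≤ 3 b(n)`: the terms with `j ≥ 22` of the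
recurrence are then negligible, and the terms with `j ≤ 15` keep the ratio in the interval.
-/

set_option autoImplicit false

open Finset PowerSeries
open scoped PowerSeries.WithPiTopology

namespace Pool.Agent.Results.MP_d4d41d_nt.PositiveFromSeven

/-- Euler's product `(q;q)_∞ = ∏_{k ≥ 1} (1 - q^k)`, as a formal power series. -/
noncomputable def euler : ℤ⟦X⟧ := ∏' k : ℕ, (1 - X ^ (k + 1))

/-- The false theta function `Ψ(a, b)`. The first sum is over `n ≥ 0`, the second sum is over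
`n = -(m + 1)`, `m ≥ 0`, where `C(n + 1, 2) = C(m + 1, 2)` and `C(n, 2) = C(m + 2, 2)`. -/
noncomputable def Psi (a b : ℤ⟦X⟧) : ℤ⟦X⟧ :=
  (∑' n : ℕ, a ^ ((n + 1).choose 2) * b ^ (n.choose 2)) -
    ∑' m : ℕ, a ^ ((m + 1).choose 2) * b ^ ((m + 2).choose 2)

/-- The number `b(n)`: the coefficient of `q^n` in `(q;q)_∞ / Ψ(-q^2, q)`. -/
noncomputable def b (n : ℕ) : ℤ := coeff n (euler * invOfUnit (Psi (-X ^ 2) X) 1)

/-! ### The coefficients of `Ψ(-q^2, q)` and of `(q;q)_∞` -/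

/-- The exponents. -/
def e1 (n : ℕ) : ℕ := n * (3 * n + 1) / 2
def e2 (n : ℕ) : ℕ := (n + 1) * (3 * n + 2) / 2

lemma two_choose (n : ℕ) : 2 * (n + 1).choose 2 = n * (n + 1) := by
  rw [Nat.choose_two_right, Nat.add_sub_cancel]
  have : 2 ∣ (n + 1) * n := by
    rw [mul_comm]; exact (Nat.even_mul_succ_self n).two_dvd
  rw [Nat.mul_div_cancel' this, mul_comm]

lemma e1_eq (n : ℕ) : 2 * (n + 1).choose 2 + n.choose 2 = e1 n := by
  have h1 := two_choose n
  have h : 2 * (2 * (n + 1).choose 2 + n.choose 2) = n * (3 * n + 1) := by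
    rcases n with _ | n
    · simp
    · have h2 := two_choose n
      nlinarith
  unfold e1
  omega

lemma e2_eq (n : ℕ) : 2 * (n + 1).choose 2 + (n + 2).choose 2 = e2 n := by
  have h1 := two_choose n
  have h2 := two_choose (n + 1)
  have h : 2 * (2 * (n + 1).choose 2 + (n + 2).choose 2) = (n + 1) * (3 * n + 2) := by
    nlinarith
  unfold e2
  omega

lemma two_e1 (n : ℕ) : 2 * e1 n = n * (3 * n + 1) := by
  rw [← e1_eq]
  have h1 := two_choose n
  rcases n with _ | n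
  · simp
  · have h2 := two_choose n
    nlinarith

lemma two_e2 (n : ℕ) : 2 * e2 n = (n + 1) * (3 * n + 2) := by
  rw [← e2_eq]
  have h1 := two_choose n
  have h2 := two_choose (n + 1)
  nlinarith

lemma e1_lt_e2 (n : ℕ) : e1 n < e2 n := by
  have h1 := two_e1 n
  have h2 := two_e2 n
  nlinarith

lemma e2_lt_e1 {n m : ℕ} (h : n < m) : e2 n < e1 m := by
  have h1 := two_e2 n
  have h2 := two_e1 m
  nlinarith

lemma le_e1 (n : ℕ) : n ≤ e1 n := by
  have h1 := two_e1 n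
  nlinarith

/-- The general form of the two coefficient sequences. -/
def C (s : ℕ → ℤ) (n : ℕ) : ℤ :=
  ∑ k ∈ range (n + 1), s k * ((if n = e1 k then 1 else 0) - (if n = e2 k then 1 else 0))

def sP (k : ℕ) : ℤ := if k % 4 = 0 ∨ k % 4 = 3 then 1 else -1
def sE (k : ℕ) : ℤ := if k % 2 = 0 then 1 else -1

lemma abs_C_le (s : ℕ → ℤ) (hs : ∀ k, |s k| = 1) (n : ℕ) : |C s n| ≤ 1 := by
  unfold C
  by_cases h : ∃ k, n = e1 k ∨ n = e2 k
  · obtain ⟨k, hk⟩ := h
    rw [Finset.sum_eq_single k]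
    · rw [abs_mul, hs, one_mul]
      split_ifs <;> simp
    · intro l _ hl
      have : n ≠ e1 l ∧ n ≠ e2 l := by
        have a1 := e1_lt_e2 l
        have a2 := e1_lt_e2 k
        rcases lt_or_gt_of_ne hl with hl | hl
        · have a3 := e2_lt_e1 hl
          omega
        · have a3 := e2_lt_e1 hl
          omega
      rw [if_neg this.1, if_neg this.2]
      simp
    · intro hk'
      exfalso
      apply hk'
      have a1 := le_e1 k
      have a2 := e1_lt_e2 k
      rw [Finset.mem_range]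
      omega
  · rw [Finset.sum_eq_zero]
    · simp
    · intro k _
      rw [if_neg (fun h' => h ⟨k, Or.inl h'⟩), if_neg (fun h' => h ⟨k, Or.inr h'⟩)]
      simp

/-- Coefficients of infinite sums. -/
lemma hasSum_of_coeff (f : ℕ → ℤ⟦X⟧) (h : ∀ n k, n < k → coeff n (f k) = 0) :
    HasSum f (mk fun n => ∑ k ∈ range (n + 1), coeff n (f k)) := by
  rw [WithPiTopology.hasSum_iff_hasSum_coeff]
  intro d
  rw [coeff_mk]
  apply hasSum_sum_of_ne_finset_zero
  intro k hk
  rw [Finset.mem_range, not_lt] at hk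
  exact h d k hk

lemma term1 (n : ℕ) : ((-X ^ 2 : ℤ⟦X⟧)) ^ ((n + 1).choose 2) * X ^ (n.choose 2) =
    PowerSeries.C ((-1 : ℤ) ^ ((n + 1).choose 2)) * X ^ (e1 n) := by
  rw [neg_pow, ← pow_mul, mul_assoc, ← pow_add, e1_eq]
  simp

lemma term2 (n : ℕ) : ((-X ^ 2 : ℤ⟦X⟧)) ^ ((n + 1).choose 2) * X ^ ((n + 2).choose 2) =
    PowerSeries.C ((-1 : ℤ) ^ ((n + 1).choose 2)) * X ^ (e2 n) := by
  rw [neg_pow, ← pow_mul, mul_assoc, ← pow_add, e2_eq]
  simp

lemma sP_eq (k : ℕ) : (-1 : ℤ) ^ ((k + 1).choose 2) = sP k := by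
  have h := two_choose k
  unfold sP
  have h4 : k % 4 < 4 := Nat.mod_lt _ (by norm_num)
  obtain ⟨r, q, hk, hr⟩ : ∃ r q, k = 4 * q + r ∧ r < 4 :=
    ⟨k % 4, k / 4, (Nat.div_add_mod k 4).symm, h4⟩
  interval_cases r
  · have : (k + 1).choose 2 = 2 * (q * (4 * q + 1)) := by nlinarith
    rw [this, pow_mul]
    have h5 : k % 4 = 0 := by omega
    simp [h5]
  · have : (k + 1).choose 2 = 2 * (4 * q * q + 3 * q) + 1 := by nlinarith
    rw [this, pow_succ, pow_mul]
    have h5 : k % 4 = 1 := by omega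
    simp [h5]
  · have : (k + 1).choose 2 = 2 * (4 * q * q + 5 * q + 1) + 1 := by nlinarith
    rw [this, pow_succ, pow_mul]
    have h5 : k % 4 = 2 := by omega
    simp [h5]
  · have : (k + 1).choose 2 = 2 * (4 * q * q + 7 * q + 3) := by nlinarith
    rw [this, pow_mul]
    have h5 : k % 4 = 3 := by omega
    simp [h5]

lemma sE_eq (k : ℕ) : (-1 : ℤ) ^ k = sE k := by
  unfold sE
  rcases Nat.even_or_odd k with h | h
  · rw [h.neg_one_pow, if_pos (Nat.even_iff.mp h)]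
  · rw [h.neg_one_pow, if_neg]
    rw [Nat.odd_iff] at h
    omega

lemma abs_sP (k : ℕ) : |sP k| = 1 := by
  unfold sP; split_ifs <;> simp

lemma abs_sE (k : ℕ) : |sE k| = 1 := by
  unfold sE; split_ifs <;> simp

lemma h1zero (n k : ℕ) (h : n < k) :
    coeff n (((-X ^ 2 : ℤ⟦X⟧)) ^ ((k + 1).choose 2) * X ^ (k.choose 2)) = 0 := by
  rw [term1, coeff_C_mul, coeff_X_pow, if_neg, mul_zero]
  have := le_e1 k
  omega

lemma h2zero (n k : ℕ) (h : n < k) :
    coeff n (((-X ^ 2 : ℤ⟦X⟧)) ^ ((k + 1).choose 2) * X ^ ((k + 2).choose 2)) = 0 := by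
  rw [term2, coeff_C_mul, coeff_X_pow, if_neg, mul_zero]
  have := le_e1 k
  have := e1_lt_e2 k
  omega

lemma summable1 : Summable fun k : ℕ =>
    ((-X ^ 2 : ℤ⟦X⟧)) ^ ((k + 1).choose 2) * X ^ (k.choose 2) :=
  (hasSum_of_coeff _ h1zero).summable

lemma summable2 : Summable fun k : ℕ =>
    ((-X ^ 2 : ℤ⟦X⟧)) ^ ((k + 1).choose 2) * X ^ ((k + 2).choose 2) :=
  (hasSum_of_coeff _ h2zero).summable

lemma coeff_Psi (n : ℕ) : coeff n (Psi (-X ^ 2) X) = C sP n := by
  unfold Psi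
  rw [(hasSum_of_coeff _ h1zero).tsum_eq, (hasSum_of_coeff _ h2zero).tsum_eq, map_sub, coeff_mk,
    coeff_mk, ← Finset.sum_sub_distrib]
  unfold C
  apply Finset.sum_congr rfl
  intro k _
  rw [term1, term2, coeff_C_mul, coeff_C_mul, coeff_X_pow, coeff_X_pow, sP_eq, mul_sub]

lemma pent1 (k : ℕ) : pentagonal (-(k : ℤ)) = e1 k := by
  have h := two_mul_natCast_pentagonal_neg (k : ℤ)
  have h2 := two_e1 k
  zify at h2 ⊢
  linarith

lemma pent2 (k : ℕ) : pentagonal ((k : ℤ) + 1) = e2 k := by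
  have h := two_mul_natCast_pentagonal ((k : ℤ) + 1)
  have h2 := two_e2 k
  zify at h2 ⊢
  nlinarith

lemma coeff_euler (n : ℕ) : coeff n euler = C sE n := by
  have h := PowerSeries.WithPiTopology.hasSum_pow_pentagonal_sub_pentagonalSeries ℤ
  have he : euler = pentagonalSeries ℤ := by
    unfold euler
    exact PowerSeries.WithPiTopology.tprod_one_sub_X_pow ℤ
  have hco : ∀ n k : ℕ, coeff n ((-1 : ℤ⟦X⟧) ^ k * (X ^ pentagonal (-(k : ℤ)) -
      X ^ pentagonal ((k : ℤ) + 1))) =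
      sE k * ((if n = e1 k then 1 else 0) - (if n = e2 k then 1 else 0)) := by
    intro n k
    have h1 : ((-1 : ℤ⟦X⟧)) ^ k = PowerSeries.C ((-1 : ℤ) ^ k) := by simp
    rw [h1, coeff_C_mul, map_sub, coeff_X_pow, coeff_X_pow, pent1, pent2, sE_eq]
  have h0 : ∀ n k : ℕ, n < k → coeff n ((-1 : ℤ⟦X⟧) ^ k * (X ^ pentagonal (-(k : ℤ)) -
      X ^ pentagonal ((k : ℤ) + 1))) = 0 := by
    intro n k hnk
    rw [hco]
    have a1 := le_e1 k
    have a2 := e1_lt_e2 k
    rw [if_neg (by omega), if_neg (by omega)]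
    simp
  rw [he, ← h.tsum_eq, (hasSum_of_coeff _ h0).tsum_eq, coeff_mk]
  unfold C
  apply Finset.sum_congr rfl
  intro k _
  exact hco n k

/-! ### The recurrence -/

lemma C_zero : C sP 0 = 1 := by decide

lemma constCoeff_Psi : constantCoeff (Psi (-X ^ 2) X) = 1 := by
  rw [← coeff_zero_eq_constantCoeff_apply, coeff_Psi, C_zero]

lemma mul_Psi : (euler * invOfUnit (Psi (-X ^ 2) X) 1) * Psi (-X ^ 2) X = euler := by
  have h : Psi (-X ^ 2) X * invOfUnit (Psi (-X ^ 2) X) 1 = 1 :=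
    mul_invOfUnit _ 1 (by rw [constCoeff_Psi]; rfl)
  rw [mul_assoc, mul_comm (invOfUnit _ _), h, mul_one]

lemma conv (n : ℕ) : ∑ j ∈ range (n + 1), C sP j * b (n - j) = C sE n := by
  have h := congrArg (coeff n) mul_Psi
  rw [mul_comm, coeff_mul, Finset.Nat.sum_antidiagonal_eq_sum_range_succ_mk, coeff_euler] at h
  rw [← h]
  apply Finset.sum_congr rfl
  intro j _
  rw [coeff_Psi]
  rfl

lemma b_zero : b 0 = 1 := by
  have h := conv 0
  rw [Finset.sum_range_one, C_zero, one_mul] at h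
  rw [h]
  decide

lemma b_succ (n : ℕ) : b (n + 1) = C sE (n + 1) - ∑ j ∈ range (n + 1), C sP (j + 1) * b (n - j) := by
  have h := conv (n + 1)
  rw [Finset.sum_range_succ', C_zero, one_mul, Nat.sub_zero] at h
  have h2 : ∑ k ∈ range (n + 1), C sP (k + 1) * b (n + 1 - (k + 1)) =
      ∑ j ∈ range (n + 1), C sP (j + 1) * b (n - j) := by
    apply Finset.sum_congr rfl
    intro j _
    congr 2
    omega
  rw [h2] at h
  linarith

/-! ### The values up to `42` -/

def L : List ℤ := [1, 0, 0, 0, 0, 0, 0, 2, 2, 4, 6, 10, 12, 20, 30, 44, 68, 106, 164, 250, 388, 596,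
  916, 1404, 2160, 3314, 5088, 7818, 12010, 18450, 28344, 43552, 66904, 102782, 157898, 242570,
  372634, 572448, 879416, 1350978, 2075416, 3188326, 4898024]

lemma L_rec : ∀ n < 42, L.getD (n + 1) 0 =
    C sE (n + 1) - ∑ j ∈ range (n + 1), C sP (j + 1) * L.getD (n - j) 0 := by
  decide +kernel

lemma b_eq : ∀ n ≤ 42, b n = L.getD n 0 := by
  intro n
  induction n using Nat.strong_induction_on with
  | _ n ih =>
    intro hn
    rcases n with _ | n
    · rw [b_zero]; rfl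
    · rw [b_succ, L_rec n (by omega)]
      congr 1
      apply Finset.sum_congr rfl
      intro j hj
      rw [ih (n - j) (by omega) (by omega)]

/-! ### The induction -/

/-- The invariant. -/
def Good (N : ℕ) : Prop :=
  (∀ k ≤ N, 0 ≤ b k) ∧
  (∀ k, 20 ≤ k → k < N → 152 * b k ≤ 100 * b (k + 1) ∧ 100 * b (k + 1) ≤ 155 * b k) ∧
  (∀ k, 20 ≤ k → k ≤ N → ∑ i ∈ range (k + 1), b i ≤ 3 * b k ∧ 388 ≤ b k)

lemma good_base : Good 42 := by
  have hL1 : ∀ k ≤ 42, 0 ≤ L.getD k 0 := by decide +kernel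
  have hL2 : ∀ k < 42, 20 ≤ k → 152 * L.getD k 0 ≤ 100 * L.getD (k + 1) 0 ∧
      100 * L.getD (k + 1) 0 ≤ 155 * L.getD k 0 := by decide +kernel
  have hL3 : ∀ k ≤ 42, 20 ≤ k → ∑ i ∈ range (k + 1), L.getD i 0 ≤ 3 * L.getD k 0 ∧
      388 ≤ L.getD k 0 := by decide +kernel
  refine ⟨fun k hk => ?_, fun k h1 h2 => ?_, fun k h1 h2 => ?_⟩
  · rw [b_eq k hk]; exact hL1 k hk
  · rw [b_eq k (by omega), b_eq (k + 1) (by omega)]; exact hL2 k h2 h1
  · have : ∑ i ∈ range (k + 1), b i = ∑ i ∈ range (k + 1), L.getD i 0 := by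
      apply Finset.sum_congr rfl
      intro i hi
      rw [Finset.mem_range] at hi
      exact b_eq i (by omega)
    rw [this, b_eq k h2]
    exact hL3 k h2 h1

lemma step (m : ℕ) (hm : 20 ≤ m) (h : Good (m + 21)) : Good (m + 22) := by
  obtain ⟨hpos, hrat, hsum⟩ := h
  -- the recurrence
  have hrec := b_succ (m + 21)
  have hsplit : ∑ j ∈ range (m + 21 + 1), C sP (j + 1) * b (m + 21 - j) =
      ∑ j ∈ range 21, C sP (j + 1) * b (m + 21 - j) +
      ∑ j ∈ range (m + 1), C sP (21 + j + 1) * b (m + 21 - (21 + j)) := by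
    rw [show m + 21 + 1 = 21 + (m + 1) by ring, Finset.sum_range_add]
  have hhead : ∑ j ∈ range 21, C sP (j + 1) * b (m + 21 - j) =
      -b (m + 21) - b (m + 20) + b (m + 17) - b (m + 15) + b (m + 10) + b (m + 7) := by
    have c1 : C sP 1 = -1 := by decide +kernel
    have c2 : C sP 2 = -1 := by decide +kernel
    have c3 : C sP 3 = 0 := by decide +kernel
    have c4 : C sP 4 = 0 := by decide +kernel
    have c5 : C sP 5 = 1 := by decide +kernel
    have c6 : C sP 6 = 0 := by decide +kernel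
    have c7 : C sP 7 = -1 := by decide +kernel
    have c8 : C sP 8 = 0 := by decide +kernel
    have c9 : C sP 9 = 0 := by decide +kernel
    have c10 : C sP 10 = 0 := by decide +kernel
    have c11 : C sP 11 = 0 := by decide +kernel
    have c12 : C sP 12 = 1 := by decide +kernel
    have c13 : C sP 13 = 0 := by decide +kernel
    have c14 : C sP 14 = 0 := by decide +kernel
    have c15 : C sP 15 = 1 := by decide +kernel
    have c16 : C sP 16 = 0 := by decide +kernel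
    have c17 : C sP 17 = 0 := by decide +kernel
    have c18 : C sP 18 = 0 := by decide +kernel
    have c19 : C sP 19 = 0 := by decide +kernel
    have c20 : C sP 20 = 0 := by decide +kernel
    have c21 : C sP 21 = 0 := by decide +kernel
    simp only [Finset.sum_range_succ, Finset.sum_range_zero, zero_add, Nat.reduceAdd, c1, c2, c3,
      c4, c5, c6, c7, c8, c9, c10, c11, c12, c13, c14, c15, c16, c17, c18, c19, c20, c21,
      zero_mul, add_zero, one_mul, Nat.sub_zero, neg_mul, Nat.add_sub_cancel,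
      show m + 21 - 1 = m + 20 by omega, show m + 21 - 4 = m + 17 by omega,
      show m + 21 - 6 = m + 15 by omega, show m + 21 - 11 = m + 10 by omega,
      show m + 21 - 14 = m + 7 by omega]
    ring
  have htail : |∑ j ∈ range (m + 1), C sP (21 + j + 1) * b (m + 21 - (21 + j))| ≤ 3 * b m := by
    calc |∑ j ∈ range (m + 1), C sP (21 + j + 1) * b (m + 21 - (21 + j))|
        ≤ ∑ j ∈ range (m + 1), |C sP (21 + j + 1) * b (m + 21 - (21 + j))| :=
          Finset.abs_sum_le_sum_abs _ _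
      _ ≤ ∑ j ∈ range (m + 1), b (m - j) := by
          apply Finset.sum_le_sum
          intro j hj
          rw [abs_mul, show m + 21 - (21 + j) = m - j by omega, abs_of_nonneg (hpos _ (by omega))]
          have := abs_C_le sP abs_sP (21 + j + 1)
          have := hpos (m - j) (by omega)
          nlinarith
      _ = ∑ i ∈ range (m + 1), b i := by
          rw [← Finset.sum_range_reflect]
          apply Finset.sum_congr rfl
          intro j hj
          rw [Finset.mem_range] at hj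
          congr 1
          omega
      _ ≤ 3 * b m := (hsum m hm (by omega)).1
  have hE := abs_C_le sE abs_sE (m + 21 + 1)
  rw [abs_le] at htail hE
  rw [hsplit, hhead] at hrec
  set θ := ∑ j ∈ range (m + 1), C sP (21 + j + 1) * b (m + 21 - (21 + j)) with hθ
  set ε := C sE (m + 21 + 1) with hε
  obtain ⟨l0, u0⟩ : 152 * b m ≤ 100 * b (m + 1) ∧ 100 * b (m + 1) ≤ 155 * b m :=
    hrat m (by omega) (by omega)
  obtain ⟨l1, u1⟩ : 152 * b (m + 1) ≤ 100 * b (m + 2) ∧ 100 * b (m + 2) ≤ 155 * b (m + 1) :=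
    hrat (m + 1) (by omega) (by omega)
  obtain ⟨l2, u2⟩ : 152 * b (m + 2) ≤ 100 * b (m + 3) ∧ 100 * b (m + 3) ≤ 155 * b (m + 2) :=
    hrat (m + 2) (by omega) (by omega)
  obtain ⟨l3, u3⟩ : 152 * b (m + 3) ≤ 100 * b (m + 4) ∧ 100 * b (m + 4) ≤ 155 * b (m + 3) :=
    hrat (m + 3) (by omega) (by omega)
  obtain ⟨l4, u4⟩ : 152 * b (m + 4) ≤ 100 * b (m + 5) ∧ 100 * b (m + 5) ≤ 155 * b (m + 4) :=
    hrat (m + 4) (by omega) (by omega)
  obtain ⟨l5, u5⟩ : 152 * b (m + 5) ≤ 100 * b (m + 6) ∧ 100 * b (m + 6) ≤ 155 * b (m + 5) :=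
    hrat (m + 5) (by omega) (by omega)
  obtain ⟨l6, u6⟩ : 152 * b (m + 6) ≤ 100 * b (m + 7) ∧ 100 * b (m + 7) ≤ 155 * b (m + 6) :=
    hrat (m + 6) (by omega) (by omega)
  obtain ⟨l7, u7⟩ : 152 * b (m + 7) ≤ 100 * b (m + 8) ∧ 100 * b (m + 8) ≤ 155 * b (m + 7) :=
    hrat (m + 7) (by omega) (by omega)
  obtain ⟨l8, u8⟩ : 152 * b (m + 8) ≤ 100 * b (m + 9) ∧ 100 * b (m + 9) ≤ 155 * b (m + 8) :=
    hrat (m + 8) (by omega) (by omega)
  obtain ⟨l9, u9⟩ : 152 * b (m + 9) ≤ 100 * b (m + 10) ∧ 100 * b (m + 10) ≤ 155 * b (m + 9) :=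
    hrat (m + 9) (by omega) (by omega)
  obtain ⟨l10, u10⟩ : 152 * b (m + 10) ≤ 100 * b (m + 11) ∧ 100 * b (m + 11) ≤ 155 * b (m + 10) :=
    hrat (m + 10) (by omega) (by omega)
  obtain ⟨l11, u11⟩ : 152 * b (m + 11) ≤ 100 * b (m + 12) ∧ 100 * b (m + 12) ≤ 155 * b (m + 11) :=
    hrat (m + 11) (by omega) (by omega)
  obtain ⟨l12, u12⟩ : 152 * b (m + 12) ≤ 100 * b (m + 13) ∧ 100 * b (m + 13) ≤ 155 * b (m + 12) :=
    hrat (m + 12) (by omega) (by omega)
  obtain ⟨l13, u13⟩ : 152 * b (m + 13) ≤ 100 * b (m + 14) ∧ 100 * b (m + 14) ≤ 155 * b (m + 13) :=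
    hrat (m + 13) (by omega) (by omega)
  obtain ⟨l14, u14⟩ : 152 * b (m + 14) ≤ 100 * b (m + 15) ∧ 100 * b (m + 15) ≤ 155 * b (m + 14) :=
    hrat (m + 14) (by omega) (by omega)
  obtain ⟨l15, u15⟩ : 152 * b (m + 15) ≤ 100 * b (m + 16) ∧ 100 * b (m + 16) ≤ 155 * b (m + 15) :=
    hrat (m + 15) (by omega) (by omega)
  obtain ⟨l16, u16⟩ : 152 * b (m + 16) ≤ 100 * b (m + 17) ∧ 100 * b (m + 17) ≤ 155 * b (m + 16) :=
    hrat (m + 16) (by omega) (by omega)
  obtain ⟨l17, u17⟩ : 152 * b (m + 17) ≤ 100 * b (m + 18) ∧ 100 * b (m + 18) ≤ 155 * b (m + 17) :=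
    hrat (m + 17) (by omega) (by omega)
  obtain ⟨l18, u18⟩ : 152 * b (m + 18) ≤ 100 * b (m + 19) ∧ 100 * b (m + 19) ≤ 155 * b (m + 18) :=
    hrat (m + 18) (by omega) (by omega)
  obtain ⟨l19, u19⟩ : 152 * b (m + 19) ≤ 100 * b (m + 20) ∧ 100 * b (m + 20) ≤ 155 * b (m + 19) :=
    hrat (m + 19) (by omega) (by omega)
  obtain ⟨l20, u20⟩ : 152 * b (m + 20) ≤ 100 * b (m + 21) ∧ 100 * b (m + 21) ≤ 155 * b (m + 20) :=
    hrat (m + 20) (by omega) (by omega)
  have hb0 := (hsum m hm (by omega)).2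
  rw [show m + 21 + 1 = m + 22 by rfl] at hrec
  obtain ⟨hE1, hE2⟩ := hE
  obtain ⟨ht1, ht2⟩ := htail
  have hlow : 152 * b (m + 21) ≤ 100 * b (m + 22) := by
    linarith
  have hupp : 100 * b (m + 22) ≤ 155 * b (m + 21) := by
    linarith
  have hs21 := hsum (m + 21) (by omega) le_rfl
  have hlarge : 388 ≤ b (m + 22) := by linarith [hs21.2]
  have hss : ∑ i ∈ range (m + 22 + 1), b i ≤ 3 * b (m + 22) := by
    rw [Finset.sum_range_succ]
    have := hs21.1
    linarith [hs21.2]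
  refine ⟨fun k hk => ?_, fun k h1 h2 => ?_, fun k h1 h2 => ?_⟩
  · rcases Nat.lt_or_ge k (m + 22) with h | h
    · exact hpos k (by omega)
    · obtain rfl : k = m + 22 := by omega
      linarith
  · rcases Nat.lt_or_ge k (m + 21) with h | h
    · exact hrat k h1 h
    · obtain rfl : k = m + 21 := by omega
      exact ⟨hlow, hupp⟩
  · rcases Nat.lt_or_ge k (m + 22) with h | h
    · exact hsum k h1 (by omega)
    · obtain rfl : k = m + 22 := by omega
      exact ⟨hss, hlarge⟩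

lemma good_all (m : ℕ) : Good (m + 42) := by
  induction m with
  | zero => exact good_base
  | succ m ih =>
    have := step (m + 21) (by omega) ih
    exact this

theorem result :
    Multipliable (fun k : ℕ => (1 - X ^ (k + 1) : ℤ⟦X⟧)) ∧
    Summable (fun n : ℕ => (-X ^ 2 : ℤ⟦X⟧) ^ ((n + 1).choose 2) * X ^ (n.choose 2)) ∧
    Summable (fun m : ℕ => (-X ^ 2 : ℤ⟦X⟧) ^ ((m + 1).choose 2) * X ^ ((m + 2).choose 2)) ∧
    constantCoeff (Psi (-X ^ 2) X) = 1 ∧
    (PowerSeries.mk b) * Psi (-X ^ 2) X = euler ∧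
    b 0 = 1 ∧ (∀ n, 1 ≤ n → n ≤ 6 → b n = 0) ∧
    ∀ n, 7 ≤ n → 0 < b n := by
  refine ⟨?_, summable1, summable2, constCoeff_Psi, ?_, b_zero, ?_, ?_⟩
  · exact (PowerSeries.WithPiTopology.hasProd_one_sub_X_pow ℤ).multipliable
  · have : PowerSeries.mk b = euler * invOfUnit (Psi (-X ^ 2) X) 1 := by
      ext n
      rw [coeff_mk]
      rfl
    rw [this, mul_Psi]
  · intro n h1 h2
    rw [b_eq n (by omega)]
    interval_cases n <;> rfl
  · intro n hn
    rcases Nat.lt_or_ge n 20 with h | h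
    · rw [b_eq n (by omega)]
      interval_cases n <;> decide
    · have := ((good_all n).2.2 n h (by omega)).2
      linarith

end Pool.Agent.Results.MP_d4d41d_nt.PositiveFromSeven
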